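import Mathlib
import Pool.Agent.H700R2.PcatBridge
import Pool.Agent.H700R2.PcatRun
import Pool.Agent.H634R2.PcatLink
import Pool.Agent.H634R2.PcatCode
import Pool.Agent.H634R2.PcatFin

/-!
# Two catalysts are enough: purely catalytic P systems generate all r.e. sets of numbers

Every recursively enumerable set of natural numbers is `N(Π)` for a purely catalytic P system `Π`
with one membrane and two catalysts, the output being sent to the environment.

Idea. The first catalyst serves the objects `a i`, `f2`, `f1` and a token `p s j`, the second one
the objects `b i`, `kp`, `g`, `th` and a token `w s j`; the first catalyst would have to transform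
the hot objects `g`, `th`, `w` into a trap, so at most one hot object may be present when the first
catalyst has nothing else to do. The rules are

* first catalyst: `a i → b i, g` (and four `b d` if `i = x`), `f2 → f1 → g`,
  `p s (j+1) → p s j`, `p s 1 → w s 1` with the emission of segment `s`;
* second catalyst: `b i → a i, f2` or `b i → th ^ (n i - 1)`, `kp → th ^ (nk - 1)`, `g → λ`,
  `th → λ`, `w s j → w s (j+1)`, `w s q → p s' (F s' + 2), g, g`.

The potential `#f2 - #g + min (j, 2)` decreases by one in each step by the first catalyst, except
for `F s` free steps of the token in segment `s`, and increases by one by the second catalyst,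
except when it is idle or serves `b i` or `kp` by the rule which gives `th`, or `th` or `w`. The
window of `q` steps in which the second catalyst serves the tokens `w s j` can be passed only if
there is no object of the first catalyst and no `g` and `th`, since otherwise the first catalyst is
never idle in the window and the potential becomes too small. Hence in segment `s` the second
catalyst has exactly `F s` such exceptional moments. The lengths `n i` are such that `F s` determines
the set of consumed units; if `F s = 1`, then the second catalyst is idle once, so all units are
transformed into `a i` at some time and back, and `4 (b x)` units `b d` (or more) are produced. The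
second kind of segment gives budgets of size at least `2 B (B - 1)`, with which a counter system
without zero tests simulates register machines.
-/

set_option autoImplicit false

namespace Pool.Agent.Results.MP_1dfda1_lc.TwoCatalystsUniversal

open Pool.Agent.H700R2.Pcat Pool.Agent.Helper273.Budget

instance finite_seg {T : Type} [Finite T] : Finite (Seg T) := by
  have : Function.Injective (fun p : Seg T => match p with
      | .gen => (Sum.inl 0 : Fin 4 ⊕ T)
      | .mid => Sum.inl 1
      | .xx => Sum.inl 2
      | .kap => Sum.inl 3
      | .tr t => Sum.inr t) := by
    intro p q h
    cases p <;> cases q <;> simp_all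
  exact Finite.of_injective _ this

/-- Every recursively enumerable set of natural numbers is generated by a purely catalytic P system
with one membrane and two catalysts. -/
theorem result (S : Set ℕ) (hS : REPred fun n => n ∈ S) :
    ∃ P : PSystem, P.PurelyCatalytic ∧ P.degree = 1 ∧ P.Cat.ncard = 2 ∧ P.numCat = 2 ∧
      P.N = S := by
  classical
  obtain ⟨T, K, hT, hK, hKd, A, d, em, h1, h2⟩ := exists_cs S hS
  obtain ⟨n, hn, hc⟩ := coding (Option K)
  have hlt : 3 < (sys A d em n).m + 1 := by
    show 3 < 2 * lk n + 2 + 1
    unfold lk
    omega
  obtain ⟨P, p1, p2, p3, p4, p5⟩ := link (O := Ob (Option K) (Seg T) (sys A d em n).m) .o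
    (R1 (sys A d em n)) (R2 (sys A d em n)) (R1_finite _) (R2_finite _)
    (fun v h => by cases h) (fun v h => by cases h) (M0 (sys A d em n) ⟨3, hlt⟩) (by
      unfold M0
      rw [Multiset.mem_add, Multiset.mem_nsmul]
      simp)
  refine ⟨P, p1, p4, p3, p2, ?_⟩
  rw [p5, bridge (sys A d em n) ⟨3, hlt⟩]
  exact cs_sim A d em n hn hc S h1 h2 ⟨3, hlt⟩ rfl

end Pool.Agent.Results.MP_1dfda1_lc.TwoCatalystsUniversal
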